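import Pool.Agent.AFP.Fin

/-!
# The number of all solutions of `σ(a)/a = σ(b)/b`

The number `N(x)` of the solutions `a < b ≤ x` is `c x + O(x ^ (2/5 + ε))` with a constant `c > 0`
(Erdős: `c x + o(x)`).

Proof. Call a solution `(a, b)` reduced if each prime factor `p` of `a b` has different exponents in `a`
and in `b`. Every solution is `(m a, m b)` with exactly one reduced solution `(a, b)` and one `m` prime
to `a b`, and all these pairs are solutions. So `N(x)` is the sum, over the reduced solutions with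
`b ≤ x`, of the number of the `m ≤ x / b` prime to `a b`, which is
`(x / b) ∏_{p ∣ a b} (1 - 1/p) + O(2 ^ ω(a b))`. At most `x ^ (2/5 + ε)` reduced solutions have `b ≤ x`:
each prime factor of `a b` divides `σ(q ^ e)` for a prime power `q ^ e` exactly dividing `a` or `b`,
seeds of this relation have a product of at most `(a b) ^ (1/5)` apart from a sparse sequence, and given
seeds belong to few pairs. So the errors add up to `x ^ (2/5 + 2 ε)`, and so does the tail of the series
for `c`.
-/

set_option autoImplicit false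

namespace Pool.Agent.Results.MP_4cb440_nt.AllSolutions

open ArithmeticFunction

/-- a solution of `σ(a)/a = σ(b)/b` with `0 < a < b` -/
def IsSolution (a b : ℕ) : Prop :=
  0 < a ∧ a < b ∧ (sigma 1 a : ℚ) / a = (sigma 1 b : ℚ) / b

/-- the set of the solutions `(a, b)` with `b ≤ x` -/
def solutionsUpTo (x : ℝ) : Set (ℕ × ℕ) := {q | IsSolution q.1 q.2 ∧ (q.2 : ℝ) ≤ x}

theorem solutionsUpTo_eq {x : ℝ} (hx : 0 ≤ x) : solutionsUpTo x = (AFP.solF ⌊x⌋₊ : Set (ℕ × ℕ)) := by
  ext q
  rw [Finset.mem_coe, AFP.mem_solF, Nat.le_floor_iff hx]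
  exact Iff.rfl

/-- For some `c > 0` and every `ε > 0` the number of all solutions `(a, b)` with `a < b ≤ x` differs
from `c x` by at most `C x ^ (2/5 + ε)`, for all `x ≥ 1`. -/
theorem result : ∃ c : ℝ, 0 < c ∧ ∀ ε : ℝ, 0 < ε → ∃ C : ℝ, ∀ x : ℝ, 1 ≤ x →
    (solutionsUpTo x).Finite ∧
      |((solutionsUpTo x).ncard : ℝ) - c * x| ≤ C * x ^ ((2 : ℝ) / 5 + ε) := by
  refine ⟨AFP.cc, AFP.cc_pos, fun ε hε => ?_⟩
  obtain ⟨C, hC⟩ := AFP.unconditional ε hε
  refine ⟨C, fun x hx => ?_⟩
  rw [solutionsUpTo_eq (by linarith), Set.ncard_coe_finset]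
  exact ⟨Finset.finite_toSet _, hC x hx⟩

end Pool.Agent.Results.MP_4cb440_nt.AllSolutions
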