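import Pool.Agent.Lib_helper24.Friendly.Final

/-!
# A power saving bound for the number of primitive solutions of `σ(a)/a = σ(b)/b`

For every `ε > 0` there is `C` such that for all `y ≥ 1` at most `C * y ^ (1/5 + ε)` primitive
solutions `(a, b)` satisfy `a b ≤ y`; in particular at most `C * x ^ (2/5 + ε)` satisfy `b ≤ x`.
-/

namespace Pool.Agent.Results.MP_4cb440_nt.PrimitiveCount

open ArithmeticFunction

/-- a solution of `σ(a)/a = σ(b)/b` with `0 < a < b` -/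
def IsSolution (a b : ℕ) : Prop :=
  0 < a ∧ a < b ∧ (sigma 1 a : ℚ) / a = (sigma 1 b : ℚ) / b

/-- a primitive solution: there is no common divisor `d > 1` such that `(a/d, b/d)` is again a
solution -/
def IsPrimitive (a b : ℕ) : Prop :=
  IsSolution a b ∧ ∀ d : ℕ, 1 < d → d ∣ a → d ∣ b → ¬ IsSolution (a / d) (b / d)

/-- the set of the primitive solutions with `a b ≤ y` -/
def primitiveUpTo (y : ℝ) : Set (ℕ × ℕ) := {x | IsPrimitive x.1 x.2 ∧ (x.1 : ℝ) * x.2 ≤ y}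

theorem primitiveUpTo_eq {y : ℝ} (hy : 0 ≤ y) :
    primitiveUpTo y = (Friendly.pairs ⌊y⌋₊ : Set (ℕ × ℕ)) := by
  ext x
  rw [Finset.mem_coe, Friendly.mem_pairs, Nat.le_floor_iff hy]
  unfold primitiveUpTo
  rw [Set.mem_setOf_eq]
  push_cast
  exact Iff.rfl

theorem bound (ε : ℝ) (hε : 0 < ε) : ∃ C : ℝ, 0 < C ∧ ∀ y : ℝ, 1 ≤ y →
    (primitiveUpTo y).Finite ∧ ((primitiveUpTo y).ncard : ℝ) ≤ C * y ^ ((1 : ℝ) / 5 + ε) := by
  obtain ⟨C, hC, h⟩ := Friendly.card_pairs_le ε hε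
  refine ⟨C, hC, fun y hy => ?_⟩
  have hy0 : (0 : ℝ) ≤ y := by linarith
  rw [primitiveUpTo_eq hy0, Set.ncard_coe_finset]
  refine ⟨Finset.finite_toSet _, (h ⌊y⌋₊ (Nat.le_floor (by exact_mod_cast hy))).trans ?_⟩
  refine mul_le_mul_of_nonneg_left ?_ hC.le
  exact Real.rpow_le_rpow (by positivity) (Nat.floor_le hy0) (by linarith)

/-- For every `ε > 0` there is `C` such that, for all `y ≥ 1`, at most `C * y ^ (1/5 + ε)` primitive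
solutions `(a, b)` of `σ(a)/a = σ(b)/b` have `a b ≤ y`, and for all `x ≥ 1` at most
`C * x ^ (2/5 + ε)` have `b ≤ x`. -/
theorem result (ε : ℝ) (hε : 0 < ε) : ∃ C : ℝ, 0 < C ∧
    (∀ y : ℝ, 1 ≤ y → {x : ℕ × ℕ | IsPrimitive x.1 x.2 ∧ (x.1 : ℝ) * x.2 ≤ y}.Finite ∧
      ({x : ℕ × ℕ | IsPrimitive x.1 x.2 ∧ (x.1 : ℝ) * x.2 ≤ y}.ncard : ℝ) ≤
        C * y ^ ((1 : ℝ) / 5 + ε)) ∧
    ∀ X : ℝ, 1 ≤ X → {x : ℕ × ℕ | IsPrimitive x.1 x.2 ∧ (x.2 : ℝ) ≤ X}.Finite ∧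
      ({x : ℕ × ℕ | IsPrimitive x.1 x.2 ∧ (x.2 : ℝ) ≤ X}.ncard : ℝ) ≤
        C * X ^ ((2 : ℝ) / 5 + ε) := by
  obtain ⟨C₁, hC₁, h₁⟩ := bound ε hε
  obtain ⟨C₂, hC₂, h₂⟩ := bound (ε / 2) (by linarith)
  refine ⟨max C₁ C₂, lt_max_of_lt_left hC₁, fun y hy => ?_, fun X hX => ?_⟩
  · refine ⟨(h₁ y hy).1, (h₁ y hy).2.trans ?_⟩
    exact mul_le_mul_of_nonneg_right (le_max_left _ _) (by positivity)
  · have hX2 : (1 : ℝ) ≤ X ^ 2 := one_le_pow₀ hX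
    obtain ⟨hf, hn⟩ := h₂ (X ^ 2) hX2
    have hsub : {x : ℕ × ℕ | IsPrimitive x.1 x.2 ∧ (x.2 : ℝ) ≤ X} ⊆ primitiveUpTo (X ^ 2) := by
      rintro x ⟨hp, hx⟩
      refine ⟨hp, ?_⟩
      have h3 : (x.1 : ℝ) ≤ x.2 := by exact_mod_cast hp.1.2.1.le
      rw [pow_two]
      exact mul_le_mul (h3.trans hx) hx (by positivity) (by linarith)
    refine ⟨hf.subset hsub, ?_⟩
    have h4 : ((X ^ 2 : ℝ)) ^ ((1 : ℝ) / 5 + ε / 2) = X ^ ((2 : ℝ) / 5 + ε) := by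
      rw [← Real.rpow_natCast, ← Real.rpow_mul (by linarith)]
      congr 1
      push_cast
      ring
    rw [h4] at hn
    calc ({x : ℕ × ℕ | IsPrimitive x.1 x.2 ∧ (x.2 : ℝ) ≤ X}.ncard : ℝ)
        ≤ ((primitiveUpTo (X ^ 2)).ncard : ℝ) := by
          exact_mod_cast Set.ncard_le_ncard hsub hf
      _ ≤ C₂ * X ^ ((2 : ℝ) / 5 + ε) := hn
      _ ≤ max C₁ C₂ * X ^ ((2 : ℝ) / 5 + ε) :=
          mul_le_mul_of_nonneg_right (le_max_right _ _) (by positivity)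

end Pool.Agent.Results.MP_4cb440_nt.PrimitiveCount
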