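import Pool.Agent.AFP.Ratio

/-!
# What follows if `σ(a)/a = σ(b)/b` has finitely many primitive solutions

(1) There are finitely many primitive solutions if and only if the ratio `a / b` takes only finitely
many values at all solutions. (2) If only finitely many primes divide `a b` for some primitive solution
`(a, b)`, then the number `N(x)` of all solutions `a < b ≤ x` is `c x + O((log x) ^ K)`.

Proof. (1) Each solution has the ratio of a primitive one. Let `α / β` be a ratio in lowest terms. If
`(n α, n β)` is primitive, all primes of `n` divide `α β` (another prime could be divided out), and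
for two such `n` none divides the other one, so they are finitely many by Dickson's lemma. (2) Call a
solution reduced if each prime factor of `a b` has different exponents in `a` and `b`. A reduced
solution is `(d a, d b)` with `(a, b)` primitive, and a prime of `d` which does not divide `a b` would
have the same exponent in both; so all primes of reduced solutions are in the given finite set `S`, and
at most `(1 + log x / log 2) ^ (2 |S|)` reduced solutions have `b ≤ x`. Every solution is `(m a, m b)`
with exactly one reduced solution and one `m` prime to `a b`, so `N(x)` is the sum over the reduced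
solutions with `b ≤ x` of the number of the `m ≤ x / b` prime to `a b`, which is `c(a,b) x + O(2 ^ |S|)`;
the sum of the `c(a, b)` with `b > x` is `O((log x) ^ K / x)`.
-/

set_option autoImplicit false

namespace Pool.Agent.Results.MP_4cb440_nt.RegularIfFinite

open ArithmeticFunction

/-- a solution of `σ(a)/a = σ(b)/b` with `0 < a < b` -/
def IsSolution (a b : ℕ) : Prop :=
  0 < a ∧ a < b ∧ (sigma 1 a : ℚ) / a = (sigma 1 b : ℚ) / b

/-- a primitive solution: there is no common divisor `d > 1` such that `(a/d, b/d)` is again a
solution -/
def IsPrimitive (a b : ℕ) : Prop :=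
  IsSolution a b ∧ ∀ d : ℕ, 1 < d → d ∣ a → d ∣ b → ¬ IsSolution (a / d) (b / d)

/-- the set of the solutions `(a, b)` with `b ≤ x` -/
def solutionsUpTo (x : ℝ) : Set (ℕ × ℕ) := {q | IsSolution q.1 q.2 ∧ (q.2 : ℝ) ≤ x}

/-- the set of the primes which divide `a b` for some primitive solution -/
def primitivePrimes : Set ℕ := {p | p.Prime ∧ ∃ a b : ℕ, IsPrimitive a b ∧ p ∣ a * b}

theorem solutionsUpTo_eq {x : ℝ} (hx : 0 ≤ x) : solutionsUpTo x = (AFP.solF ⌊x⌋₊ : Set (ℕ × ℕ)) := by
  ext q
  rw [Finset.mem_coe, AFP.mem_solF, Nat.le_floor_iff hx]
  exact Iff.rfl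

/-- (1) Finitely many primitive solutions exist if and only if the ratio `a / b` takes finitely many
values at all solutions. (2) If the set of the primes which occur in primitive solutions is finite
(for example if there are finitely many primitive solutions), then for some `c > 0`, `C` and `K` the
number of all solutions with `a < b ≤ x` differs from `c x` by at most `C (1 + log x) ^ K`, for all
`x ≥ 1`. -/
theorem result :
    ({q : ℕ × ℕ | IsPrimitive q.1 q.2}.Finite ↔
      {r : ℚ | ∃ a b : ℕ, IsSolution a b ∧ r = (a : ℚ) / b}.Finite) ∧
    (primitivePrimes.Finite → ∃ (c C : ℝ) (K : ℕ), 0 < c ∧ ∀ x : ℝ, 1 ≤ x →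
      (solutionsUpTo x).Finite ∧
        |((solutionsUpTo x).ncard : ℝ) - c * x| ≤ C * (1 + Real.log x) ^ K) := by
  refine ⟨AFP.ratio_iff, fun hS => ?_⟩
  obtain ⟨C, hC⟩ := AFP.conditional hS.toFinset (by
    intro a b hab p hp
    rw [Set.Finite.mem_toFinset]
    exact ⟨Nat.prime_of_mem_primeFactors hp, a, b, hab, Nat.dvd_of_mem_primeFactors hp⟩)
  refine ⟨AFP.cc, C, 2 * hS.toFinset.card, AFP.cc_pos, fun x hx => ?_⟩
  rw [solutionsUpTo_eq (by linarith), Set.ncard_coe_finset]
  exact ⟨Finset.finite_toSet _, hC x hx⟩

end Pool.Agent.Results.MP_4cb440_nt.RegularIfFinite
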